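import Mathlib
import Pool.Agent.Helper240.ZFM.R3
import Pool.Agent.Helper265.HgDefs

/-! Uniform polynomial approximation of the dilates of analytic functions on a strictly star shaped
domain (Runge's theorem and the Arzela-Ascoli theorem). -/

set_option autoImplicit false
open Complex Set Filter Metric Topology

namespace Pool.Agent.U547.SP

open Pool.Agent.Helper265.Hg (Good)

/-- exteriors of discs are connected -/
theorem ext_conn {R : ℝ} (hR : 0 < R) : IsPreconnected {z : ℂ | R < ‖z‖} := by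
  have h1 : {z : ℂ | R < ‖z‖} = exp '' {ζ : ℂ | Real.log R < ζ.re} := by
    ext z
    constructor
    · intro (hz : R < ‖z‖)
      have hz0 : z ≠ 0 := by
        rintro rfl
        rw [norm_zero] at hz
        linarith
      refine ⟨Complex.log z, ?_, Complex.exp_log hz0⟩
      show Real.log R < (Complex.log z).re
      rw [Complex.log_re]
      exact Real.log_lt_log hR hz
    · rintro ⟨ζ, hζ, rfl⟩
      show R < ‖exp ζ‖
      rw [Complex.norm_exp]
      exact (Real.log_lt_iff_lt_exp hR).1 hζ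
  rw [h1]
  exact ((convex_halfSpace_re_gt _).isPreconnected).image _ Complex.continuous_exp.continuousOn

/-- the complement of a star shaped subset of the closed unit disc is connected -/
theorem compl_conn {K : Set ℂ} (hb : K ⊆ closedBall 0 1) (h0 : (0 : ℂ) ∈ K)
    (hs : ∀ z ∈ K, ∀ c : ℝ, 0 ≤ c → c ≤ 1 → (c : ℂ) * z ∈ K) : IsConnected Kᶜ := by
  have hE : {z : ℂ | 1 < ‖z‖} ⊆ Kᶜ := by
    intro z hz hzK
    have := hb hzK
    rw [mem_closedBall_zero_iff] at this
    exact absurd hz (not_lt.2 this)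
  have h2 : (2 : ℂ) ∈ {z : ℂ | 1 < ‖z‖} := by simp
  refine ⟨⟨2, hE h2⟩, ?_⟩
  refine isPreconnected_of_forall (2 : ℂ) fun y hy => ?_
  have hy0 : y ≠ 0 := fun h => hy (h ▸ h0)
  have hyn : 0 < ‖y‖ := norm_pos_iff.2 hy0
  let g : ℝ → ℂ := fun t => (t : ℂ) * y
  have hg : Continuous g := by fun_prop
  have hray : IsPreconnected (g '' Ici 1) := (isPreconnected_Ici).image _ hg.continuousOn
  have hsub : g '' Ici 1 ⊆ Kᶜ := by
    rintro _ ⟨t, ht, rfl⟩ hK
    have ht1 : (1 : ℝ) ≤ t := ht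
    have := hs _ hK (1 / t) (by positivity) (by rw [div_le_one (by linarith)]; exact ht1)
    apply hy
    have e : ((1 / t : ℝ) : ℂ) * ((t : ℂ) * y) = y := by
      have : (t : ℂ) ≠ 0 := by exact_mod_cast (by linarith : t ≠ 0)
      push_cast
      field_simp
    have e' : ((1 / t : ℝ) : ℂ) * g t = y := e
    rw [e'] at this
    exact this
  have hx : g (1 + 2 / ‖y‖) ∈ {z : ℂ | 1 < ‖z‖} := by
    show 1 < ‖((1 + 2 / ‖y‖ : ℝ) : ℂ) * y‖
    rw [norm_mul, Complex.norm_real, Real.norm_of_nonneg (by positivity)]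
    have : (1 + 2 / ‖y‖) * ‖y‖ = ‖y‖ + 2 := by field_simp
    rw [this]; linarith
  refine ⟨{z : ℂ | 1 < ‖z‖} ∪ g '' Ici 1, union_subset hE hsub, Or.inl h2, Or.inr ⟨1, self_mem_Ici, by simp [g]⟩, ?_⟩
  refine IsPreconnected.union _ hx ⟨_, ?_, rfl⟩ (ext_conn one_pos) hray
  show (1 : ℝ) ≤ 1 + 2 / ‖y‖
  have : 0 ≤ 2 / ‖y‖ := by positivity
  linarith

/-- the compact set `(1 + s) / 2 * closure G` -/
noncomputable def shr (G : Set ℂ) (s : ℝ) : Set ℂ := (fun z => (((1 + s) / 2 : ℝ) : ℂ) * z) '' closure G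

theorem closure_sub {G : Set ℂ} (hG : Good G) : closure G ⊆ closedBall 0 1 :=
  closure_minimal (hG.sub.trans ball_subset_closedBall) isClosed_closedBall

theorem compact_cl {G : Set ℂ} (hG : Good G) : IsCompact (closure G) :=
  (isCompact_closedBall (0 : ℂ) 1).of_isClosed_subset isClosed_closure (closure_sub hG)

theorem shr_compact {G : Set ℂ} (hG : Good G) (s : ℝ) : IsCompact (shr G s) :=
  (compact_cl hG).image (by fun_prop)

theorem shr_sub {G : Set ℂ} (hG : Good G) {s : ℝ} (hs0 : 0 < s) (hs1 : s < 1) : shr G s ⊆ G := by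
  rintro _ ⟨z, hz, rfl⟩
  exact hG.star z hz _ (by linarith) (by linarith)

/-- uniform polynomial approximation of dilates -/
theorem approx_unif {G : Set ℂ} (hG : Good G) {s : ℝ} (hs0 : 0 < s) (hs1 : s < 1) {B : ℝ}
    (hB : 0 ≤ B) {ε : ℝ} (hε : 0 < ε) :
    ∃ M : ℝ, 0 ≤ M ∧ ∀ f : ℂ → ℂ, DifferentiableOn ℂ f G → (∀ z ∈ shr G s, ‖f z‖ ≤ B) →
      ∃ P : Polynomial ℂ, (∀ z ∈ closure G, ‖f ((s : ℂ) * z) - P.eval z‖ ≤ ε) ∧
        ∀ z ∈ closedBall (0 : ℂ) 1, ‖P.eval z‖ ≤ M := by
  classical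
  set K : Set ℂ := closure G with hK
  have hKc : IsCompact K := compact_cl hG
  have : CompactSpace K := isCompact_iff_compactSpace.1 hKc
  set s' : ℝ := (1 + s) / 2 with hs'
  have hs'0 : 0 < s' := by rw [hs']; linarith
  have hs'1 : s' < 1 := by rw [hs']; linarith
  have hss' : s < s' := by rw [hs']; linarith
  have hs'c : (s' : ℂ) ≠ 0 := by exact_mod_cast hs'0.ne'
  have hconn : IsConnected Kᶜ := by
    refine compl_conn (closure_sub hG) (subset_closure (hG.core (by simp))) fun z hz c hc0 hc1 => ?_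
    rcases hc1.eq_or_lt with h | h
    · rw [h]; simpa using hz
    · exact subset_closure (hG.star z hz c hc0 h)
  -- `s z` is in the open set `s' G`
  set V : Set ℂ := (fun z => ((s'⁻¹ : ℝ) : ℂ) * z) ⁻¹' G with hV
  have hVo : IsOpen V := hG.op.preimage (by fun_prop)
  have hVL : V ⊆ shr G s := by
    intro z hz
    refine ⟨((s'⁻¹ : ℝ) : ℂ) * z, subset_closure hz, ?_⟩
    simp only [← hs']
    push_cast
    field_simp
  have hLG : shr G s ⊆ G := shr_sub hG hs0 hs1
  have hsV : ∀ z ∈ K, (s : ℂ) * z ∈ V := by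
    intro z hz
    show ((s'⁻¹ : ℝ) : ℂ) * ((s : ℂ) * z) ∈ G
    have := hG.star z hz (s / s') (by positivity) (by rw [div_lt_one hs'0]; exact hss')
    convert this using 1
    push_cast
    field_simp
  let A : Set (BoundedContinuousFunction K ℂ) := {F | ∃ f : ℂ → ℂ, DifferentiableOn ℂ f G ∧
    (∀ z ∈ shr G s, ‖f z‖ ≤ B) ∧ ∀ z : K, F z = f ((s : ℂ) * z)}
  have hcomp : IsCompact (closure A) := by
    refine BoundedContinuousFunction.arzela_ascoli (closedBall (0 : ℂ) B)
      (isCompact_closedBall _ _) A ?_ ?_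
    · rintro F z ⟨f, -, hfB, hF⟩
      rw [hF, mem_closedBall_zero_iff]
      exact hfB _ (hVL (hsV z z.2))
    · intro z0
      rw [Metric.equicontinuousAt_iff]
      intro η hη
      obtain ⟨d, hd, hdV⟩ := Metric.isOpen_iff.1 hVo _ (hsV z0 z0.2)
      have hq : 0 < (2 * B + 1) / d := by positivity
      refine ⟨min d (η / ((2 * B + 1) / d)), lt_min hd (by positivity), fun z hz F => ?_⟩
      obtain ⟨f, hf, hfB, hF⟩ := F.2
      have hFz : ∀ z : K, (F : BoundedContinuousFunction K ℂ) z = f ((s : ℂ) * z) := hF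
      show dist ((F : BoundedContinuousFunction K ℂ) z0) ((F : BoundedContinuousFunction K ℂ) z) < η
      rw [hFz, hFz, dist_comm]
      have hzz : dist ((s : ℂ) * z) ((s : ℂ) * z0) ≤ dist z z0 := by
        rw [dist_eq_norm, ← mul_sub, norm_mul, Complex.norm_real, Real.norm_of_nonneg hs0.le,
          Subtype.dist_eq, dist_eq_norm]
        nlinarith [norm_nonneg ((z : ℂ) - z0)]
      have hz1 : dist z z0 < d := hz.trans_le (min_le_left _ _)
      have hz2 : dist z z0 < η / ((2 * B + 1) / d) := hz.trans_le (min_le_right _ _)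
      have h1 := Complex.dist_le_div_mul_dist_of_mapsTo_ball (f := f) (c := (s : ℂ) * z0)
        (R₁ := d) (R₂ := 2 * B + 1) (z := (s : ℂ) * z)
        (hf.mono (hdV.trans (hVL.trans hLG))) (by
          intro w hw
          rw [mem_closedBall, dist_eq_norm]
          have a1 := hfB w (hVL (hdV hw))
          have a2 := hfB _ (hVL (hdV (mem_ball_self hd)))
          have a3 := norm_sub_le (f w) (f ((s : ℂ) * z0))
          linarith) (by
          rw [mem_ball]
          exact hzz.trans_lt hz1)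
      calc dist (f ((s : ℂ) * z)) (f ((s : ℂ) * z0)) ≤ (2 * B + 1) / d * dist ((s : ℂ) * z) ((s : ℂ) * z0) := h1
        _ ≤ (2 * B + 1) / d * dist z z0 := by gcongr
        _ < (2 * B + 1) / d * (η / ((2 * B + 1) / d)) := by gcongr
        _ = η := by field_simp
  let pc : Polynomial ℂ → BoundedContinuousFunction K ℂ := fun P =>
    BoundedContinuousFunction.mkOfCompact ⟨fun z => P.eval (z : ℂ), by fun_prop⟩
  have hcov : closure A ⊆ ⋃ P : Polynomial ℂ, ball (pc P) ε := by
    intro F hF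
    obtain ⟨F', hF', hFF'⟩ := Metric.mem_closure_iff.1 hF (ε / 2) (by positivity)
    obtain ⟨f, hf, hfB, hf2⟩ := hF'
    set U : Set ℂ := (fun z => (s : ℂ) * z) ⁻¹' G with hU
    have hUo : IsOpen U := hG.op.preimage (by fun_prop)
    have hKU : K ⊆ U := fun z hz => hG.star z hz s hs0.le hs1
    obtain ⟨P, hP⟩ := ZFM.J_r3.runge hKc hconn hUo hKU (fun z => f ((s : ℂ) * z))
      (hf.comp (by fun_prop) (fun z hz => hz)) (ε / 3) (by positivity)
    refine mem_iUnion.2 ⟨P, ?_⟩
    rw [mem_ball]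
    have h1 : dist F' (pc P) ≤ ε / 3 := by
      rw [BoundedContinuousFunction.dist_le (by positivity)]
      intro z
      have e1 : pc P z = P.eval (z : ℂ) := rfl
      rw [hf2, e1, dist_eq_norm]
      exact (hP z z.2).le
    calc dist F (pc P) ≤ dist F F' + dist F' (pc P) := dist_triangle _ _ _
      _ < ε / 2 + ε / 2 := by linarith
      _ = ε := by ring
  obtain ⟨t, ht⟩ := hcomp.elim_finite_subcover (fun P => ball (pc P) ε) (fun _ => isOpen_ball) hcov
  have hbd : ∀ P : Polynomial ℂ, ∃ b : ℝ, 0 ≤ b ∧ ∀ z ∈ closedBall (0 : ℂ) 1, ‖P.eval z‖ ≤ b := by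
    intro P
    obtain ⟨b, hb⟩ := (isCompact_closedBall (0 : ℂ) 1).exists_bound_of_continuousOn
      (Polynomial.continuous P).continuousOn
    exact ⟨|b|, abs_nonneg _, fun z hz => (hb z hz).trans (le_abs_self b)⟩
  choose b hb0 hb using hbd
  refine ⟨∑ P ∈ t, b P, Finset.sum_nonneg fun P _ => hb0 P, fun f hf hfB => ?_⟩
  have hcont : Continuous fun z : K => f ((s : ℂ) * z) := by
    have h1 : ContinuousOn (fun z : ℂ => f ((s : ℂ) * z)) K := by
      refine hf.continuousOn.comp (by fun_prop) fun z hz => hG.star z hz s hs0.le hs1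
    exact continuousOn_iff_continuous_domRestrict.1 h1
  let F : BoundedContinuousFunction K ℂ := BoundedContinuousFunction.mkOfCompact
    ⟨fun z => f ((s : ℂ) * z), hcont⟩
  have hFA : F ∈ A := ⟨f, hf, hfB, fun z => rfl⟩
  obtain ⟨P, hPt, hP⟩ := mem_iUnion₂.1 (ht (subset_closure hFA))
  refine ⟨P, fun z hz => ?_, fun z hz => ?_⟩
  · have h1 := BoundedContinuousFunction.dist_coe_le_dist (f := F) (g := pc P) ⟨z, hz⟩
    rw [mem_ball] at hP
    have e1 : pc P ⟨z, hz⟩ = P.eval z := rfl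
    have e2 : F ⟨z, hz⟩ = f ((s : ℂ) * z) := rfl
    rw [e1, e2, dist_eq_norm] at h1
    exact h1.trans hP.le
  · exact (hb P z hz).trans (Finset.single_le_sum (fun P _ => hb0 P) hPt)

end Pool.Agent.U547.SP
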