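import Mathlib
import Pool.Agent.U547.SP.Unif
import Pool.Agent.Helper202.Riemann
import Pool.Agent.Helper265.HgMV

/-! Bounds on compact subsets which do not depend on the larger domain. -/

set_option autoImplicit false
open Complex Set Filter Metric Topology MeasureTheory
open scoped ENNReal

namespace Pool.Agent.U547.SP

open Pool.Agent.Helper265.Hg (Good mv_ball)

theorem star_sc {U : Set ℂ} (h0 : (0 : ℂ) ∈ U)
    (hs : ∀ z ∈ U, ∀ c : ℝ, 0 < c → c ≤ 1 → (c : ℂ) * z ∈ U) : IsSimplyConnected U := by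
  have h1 : StarConvex ℝ (0 : ℂ) U := by
    intro y hy a b ha hb hab
    rw [smul_zero, zero_add, Complex.real_smul]
    rcases hb.eq_or_lt with h | h
    · rw [← h]; simpa using h0
    · exact hs y hy b h (by linarith)
  have : ContractibleSpace U := h1.contractibleSpace ⟨0, h0⟩
  exact SimplyConnectedSpace.ofContractible U

theorem good_zero {G : Set ℂ} (hG : Good G) : (0 : ℂ) ∈ G := hG.core (by simp)

theorem good_star {G : Set ℂ} (hG : Good G) : ∀ z ∈ G, ∀ c : ℝ, 0 < c → c ≤ 1 → (c : ℂ) * z ∈ G := by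
  intro z hz c hc0 hc1
  rcases hc1.eq_or_lt with h | h
  · rw [h]; simpa using hz
  · exact hG.star z (subset_closure hz) c hc0.le h

theorem good_sc {G : Set ℂ} (hG : Good G) : IsSimplyConnected G :=
  star_sc (good_zero hG) (good_star hG)

theorem ne_univ_of_ball {G : Set ℂ} (h : G ⊆ ball 0 1) : G ≠ univ := by
  intro h1
  have : (2 : ℂ) ∈ ball (0 : ℂ) 1 := h (h1 ▸ mem_univ _)
  rw [mem_ball_zero_iff] at this
  norm_num at this

/-- the functions with values in the disc and `φ 0 = 0` are uniformly less than one -/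
theorem sup_phi {G : Set ℂ} (hG : Good G) {L : Set ℂ} (hL : IsCompact L) (hLG : L ⊆ G) :
    ∃ ρ : ℝ, 0 ≤ ρ ∧ ρ < 1 ∧ ∀ φ : ℂ → ℂ, DifferentiableOn ℂ φ G → MapsTo φ G (ball 0 1) →
      φ 0 = 0 → ∀ z ∈ L, ‖φ z‖ ≤ ρ := by
  obtain ⟨g, ψ, hg, hgb, -, hg0, hψ, hψm, hgψ, hψg⟩ :=
    Pool.Agent.Helper202.Riemann.riemann_inv hG.op (good_sc hG) (ne_univ_of_ball hG.sub)
      (good_zero hG)
  rcases L.eq_empty_or_nonempty with rfl | hne
  · exact ⟨0, le_rfl, one_pos, by simp⟩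
  obtain ⟨z0, hz0, hmax⟩ := hL.exists_isMaxOn hne ((hψ.continuousOn.mono hLG).norm)
  refine ⟨‖ψ z0‖, norm_nonneg _, by simpa using hψm (hLG hz0), fun φ hφ hφm hφ0 z hz => ?_⟩
  have h1 : ‖(φ ∘ g) (ψ z)‖ ≤ ‖ψ z‖ := by
    refine Complex.norm_le_norm_of_mapsTo_ball (R := 1) (hφ.comp hg hgb.mapsTo) ?_ ?_ ?_
    · intro w hw
      exact ball_subset_closedBall (hφm (hgb.mapsTo hw))
    · simp [hg0, hφ0]
    · simpa using hψm (hLG hz)
  rw [Function.comp_apply, hgψ z (hLG hz)] at h1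
  exact h1.trans (hmax hz)

/-- weighted sup bound, uniform in the conformal map -/
theorem sup_w {G : Set ℂ} (hG : Good G) {L : Set ℂ} (hL : IsCompact L) (hLG : L ⊆ G)
    {W : ℝ → ℝ} (hpos : ∀ t ∈ Ioc (0 : ℝ) 1, 0 < W t) (hmono : MonotoneOn W (Ioc 0 1)) :
    ∃ C : ℝ, 0 ≤ C ∧ ∀ f φ : ℂ → ℂ, DifferentiableOn ℂ f G → DifferentiableOn ℂ φ G →
      MapsTo φ G (ball 0 1) → φ 0 = 0 → ∀ A : ℝ, 0 ≤ A →
      (∫⁻ z in G, ‖f z‖ₑ * ENNReal.ofReal (W (1 - ‖φ z‖))) ≤ ENNReal.ofReal A →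
      ∀ z ∈ L, ‖f z‖ ≤ C * A := by
  obtain ⟨d, hd, hdG⟩ := hL.exists_cthickening_subset_open hG.op hLG
  have hLc : IsCompact (cthickening d L) := hL.cthickening
  obtain ⟨ρ, hρ0, hρ1, hρ⟩ := sup_phi hG hLc hdG
  have hc : 0 < W (1 - ρ) := hpos _ ⟨by linarith, by linarith⟩
  have hpi := Real.pi_pos
  refine ⟨(Real.pi * d ^ 2 * W (1 - ρ))⁻¹, by positivity, fun f φ hf hφ hφm hφ0 A hA hfA z hz => ?_⟩
  have hball : ball z d ⊆ cthickening d L := fun w hw =>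
    thickening_subset_cthickening _ _ (mem_thickening_iff.2 ⟨z, hz, hw⟩)
  have h1 := mv_ball hd (hf.mono (hball.trans hdG))
  have h2 : ENNReal.ofReal (W (1 - ρ)) * ∫⁻ w in ball z d, ‖f w‖ₑ ≤
      ∫⁻ w in G, ‖f w‖ₑ * ENNReal.ofReal (W (1 - ‖φ w‖)) := by
    rw [← lintegral_const_mul' _ _ ENNReal.ofReal_ne_top]
    calc ∫⁻ w in ball z d, ENNReal.ofReal (W (1 - ρ)) * ‖f w‖ₑ
        ≤ ∫⁻ w in ball z d, ‖f w‖ₑ * ENNReal.ofReal (W (1 - ‖φ w‖)) := by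
          refine setLIntegral_mono' isOpen_ball.measurableSet fun w hw => ?_
          rw [mul_comm]
          gcongr
          have h3 := hρ φ hφ hφm hφ0 w (hball hw)
          refine hmono ⟨by linarith, by linarith⟩ ⟨by linarith, by linarith [norm_nonneg (φ w)]⟩
            (by linarith)
      _ ≤ _ := lintegral_mono_set (hball.trans hdG)
  have h3 : ENNReal.ofReal (W (1 - ρ)) * (ENNReal.ofReal (Real.pi * d ^ 2) * ‖f z‖ₑ) ≤
      ENNReal.ofReal A := (mul_le_mul_right h1 _).trans (h2.trans hfA)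
  rw [← ofReal_norm, ← ENNReal.ofReal_mul (by positivity), ← ENNReal.ofReal_mul (by positivity),
    ENNReal.ofReal_le_ofReal_iff hA] at h3
  rw [inv_mul_eq_div, le_div_iff₀ (by positivity)]
  calc ‖f z‖ * (Real.pi * d ^ 2 * W (1 - ρ)) = W (1 - ρ) * (Real.pi * d ^ 2 * ‖f z‖) := by ring
    _ ≤ A := h3

/-- radii -/
noncomputable def rad (n : ℕ) : ℝ := 1 - 1 / ((n : ℝ) + 2)

theorem rad_pos (n : ℕ) : 0 < rad n := by
  unfold rad
  have : (1 : ℝ) / ((n : ℝ) + 2) < 1 := by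
    rw [div_lt_one (by positivity)]
    have : (0 : ℝ) ≤ n := n.cast_nonneg
    linarith
  linarith

theorem rad_lt (n : ℕ) : rad n < 1 := by
  unfold rad
  have : (0 : ℝ) < 1 / ((n : ℝ) + 2) := by positivity
  linarith

theorem rad_tendsto : Tendsto rad atTop (𝓝 1) := by
  have h1 : Tendsto (fun n : ℕ => 1 / ((n : ℝ) + 2)) atTop (𝓝 0) := by
    apply Tendsto.div_atTop tendsto_const_nhds
    exact tendsto_atTop_add_const_right _ _ tendsto_natCast_atTop_atTop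
  have h2 := h1.const_sub 1
  rw [sub_zero] at h2
  exact h2

/-- The property of the bound `M` at stage `n`. -/
def Stage (W : ℝ → ℝ) (n : ℕ) (G : Set ℂ) (M : ℝ) : Prop :=
  0 ≤ M ∧ ∀ f φ : ℂ → ℂ, DifferentiableOn ℂ f G → DifferentiableOn ℂ φ G →
      MapsTo φ G (ball 0 1) → φ 0 = 0 →
      (∫⁻ z in G, ‖f z‖ₑ * ENNReal.ofReal (W (1 - ‖φ z‖))) ≤ ENNReal.ofReal n →
      ∃ P : Polynomial ℂ, (∀ z ∈ G, ‖f ((rad n : ℂ) * z) - P.eval z‖ ≤ 1 / ((n : ℝ) + 1)) ∧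
        ∀ z ∈ closedBall (0 : ℂ) 1, ‖P.eval z‖ ≤ M

theorem exists_stage {W : ℝ → ℝ} (hpos : ∀ t ∈ Ioc (0 : ℝ) 1, 0 < W t)
    (hmono : MonotoneOn W (Ioc 0 1)) (n : ℕ) {G : Set ℂ} (hG : Good G) : ∃ M, Stage W n G M := by
  obtain ⟨C, hC0, hC⟩ := sup_w hG (shr_compact hG (rad n)) (shr_sub hG (rad_pos n) (rad_lt n))
    hpos hmono
  obtain ⟨M, hM0, hM⟩ := approx_unif hG (rad_pos n) (rad_lt n) (B := C * n) (by positivity)
    (ε := 1 / ((n : ℝ) + 1)) (by positivity)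
  refine ⟨M, hM0, fun f φ hf hφ hφm hφ0 hfA => ?_⟩
  obtain ⟨P, hP1, hP2⟩ := hM f hf (hC f φ hf hφ hφm hφ0 n (by positivity) hfA)
  exact ⟨P, fun z hz => hP1 z (subset_closure hz), hP2⟩

end Pool.Agent.U547.SP
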