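import Mathlib
import Pool.Agent.Helper265.HgDefs

/-! The disc with dense thin spikes. -/

set_option autoImplicit false
open Complex Set Filter Metric Topology MeasureTheory
open scoped ENNReal

namespace Pool.Agent.U547.SP

open Pool.Agent.Helper265.Hg (Good)

/-- a thin triangle with vertices `1`, `± δ i` -/
def tri (δ : ℝ) : Set ℂ := {w | 0 < w.re ∧ w.re < 1 ∧ |w.im| < δ * (1 - w.re)}

/-- the rotated triangle -/
def spike (u : Circle) (δ : ℝ) : Set ℂ := (rotation u⁻¹) ⁻¹' tri δ

/-- the unit disc without a segment of it -/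
def core : Set ℂ := {z | z ∈ ball (0 : ℂ) 1 ∧ -1 / 2 < z.re}

theorem tri_open (δ : ℝ) : IsOpen (tri δ) := by
  have h1 : IsOpen {w : ℂ | 0 < w.re} := isOpen_lt continuous_const continuous_re
  have h2 : IsOpen {w : ℂ | w.re < 1} := isOpen_lt continuous_re continuous_const
  have h3 : IsOpen {w : ℂ | |w.im| < δ * (1 - w.re)} :=
    isOpen_lt (continuous_abs.comp continuous_im) (by fun_prop)
  exact h1.inter (h2.inter h3)

theorem spike_open (u : Circle) (δ : ℝ) : IsOpen (spike u δ) :=
  (tri_open δ).preimage (rotation u⁻¹).continuous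

theorem core_open : IsOpen core :=
  isOpen_ball.inter (isOpen_lt continuous_const continuous_re)

theorem tri_sub {δ : ℝ} (hδ : δ ≤ 1 / 8) : tri δ ⊆ ball 0 1 := by
  rintro w ⟨h1, h2, h3⟩
  rw [mem_ball_zero_iff]
  have h4 : ‖w‖ ^ 2 = w.re ^ 2 + w.im ^ 2 := by
    rw [← Complex.normSq_eq_norm_sq, Complex.normSq_apply]; ring
  have h5 : |w.im| < 1 - w.re := by nlinarith [abs_nonneg w.im]
  have h6 : w.im ^ 2 < (1 - w.re) ^ 2 := by
    rw [← sq_abs]
    exact pow_lt_pow_left₀ h5 (abs_nonneg _) two_ne_zero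
  have h7 : ‖w‖ ^ 2 < 1 := by nlinarith
  exact (sq_lt_one_iff₀ (norm_nonneg _)).1 h7

theorem spike_sub (u : Circle) {δ : ℝ} (hδ : δ ≤ 1 / 8) : spike u δ ⊆ ball 0 1 := by
  intro z hz
  have := tri_sub hδ hz
  rw [mem_ball_zero_iff] at this ⊢
  rwa [LinearIsometryEquiv.norm_map] at this

theorem closure_tri {δ : ℝ} : closure (tri δ) ⊆ {w : ℂ | 0 ≤ w.re ∧ w.re ≤ 1 ∧ |w.im| ≤ δ * (1 - w.re)} := by
  apply closure_minimal
  · rintro w ⟨h1, h2, h3⟩
    exact ⟨h1.le, h2.le, h3.le⟩
  · have h1 : IsClosed {w : ℂ | 0 ≤ w.re} := isClosed_le continuous_const continuous_re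
    have h2 : IsClosed {w : ℂ | w.re ≤ 1} := isClosed_le continuous_re continuous_const
    have h3 : IsClosed {w : ℂ | |w.im| ≤ δ * (1 - w.re)} :=
      isClosed_le (continuous_abs.comp continuous_im) (by fun_prop)
    exact h1.inter (h2.inter h3)

theorem good_core : Good core where
  op := core_open
  sub := fun z hz => hz.1
  core := by
    intro z hz
    rw [mem_ball_zero_iff] at hz
    refine ⟨by rw [mem_ball_zero_iff]; linarith, ?_⟩
    have := Complex.abs_re_le_norm z
    have := (abs_le.1 this).1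
    linarith
  star := by
    intro z hz c hc0 hc1
    have h1 : closure core ⊆ closedBall 0 1 ∩ {z : ℂ | -1 / 2 ≤ z.re} := by
      apply closure_minimal
      · rintro w ⟨h1, h2⟩
        exact ⟨ball_subset_closedBall h1, h2.le⟩
      · exact isClosed_closedBall.inter (isClosed_le continuous_const continuous_re)
    obtain ⟨h2, h3⟩ := h1 hz
    have h3' : -1 / 2 ≤ z.re := h3
    rw [mem_closedBall_zero_iff] at h2
    refine ⟨?_, ?_⟩
    · rw [mem_ball_zero_iff, norm_mul, Complex.norm_real, Real.norm_of_nonneg hc0]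
      nlinarith [norm_nonneg z]
    · rw [Complex.re_ofReal_mul]
      nlinarith

theorem good_union {G : Set ℂ} (hG : Good G) (u : Circle) {δ : ℝ} (hδ0 : 0 < δ)
    (hδ : δ ≤ 1 / 8) : Good (G ∪ spike u δ) where
  op := hG.op.union (spike_open u δ)
  sub := union_subset hG.sub (spike_sub u hδ)
  core := hG.core.trans subset_union_left
  star := by
    intro z hz c hc0 hc1
    rw [closure_union] at hz
    rcases hz with hz | hz
    · exact Or.inl (hG.star z hz c hc0 hc1)
    · rcases hc0.eq_or_lt with h0 | h0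
      · rw [← h0]
        left
        apply hG.core
        simp
      have h1 : rotation u⁻¹ z ∈ closure (tri δ) := by
        have : closure (spike u δ) ⊆ (rotation u⁻¹) ⁻¹' closure (tri δ) :=
          (rotation u⁻¹).continuous.closure_preimage_subset _
        exact this hz
      obtain ⟨h2, h3, h4⟩ := closure_tri h1
      have e : rotation u⁻¹ ((c : ℂ) * z) = (c : ℂ) * rotation u⁻¹ z := by
        simp only [rotation_apply]; ring
      rcases h2.eq_or_lt with h5 | h5
      · left
        apply hG.core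
        rw [mem_ball_zero_iff, norm_mul, Complex.norm_real, Real.norm_of_nonneg hc0,
          ← LinearIsometryEquiv.norm_map (rotation u⁻¹) z]
        have h6 : ‖rotation u⁻¹ z‖ ≤ |(rotation u⁻¹ z).re| + |(rotation u⁻¹ z).im| :=
          Complex.norm_le_abs_re_add_abs_im _
        rw [← h5, abs_zero, zero_add] at h6
        rw [← h5, sub_zero, mul_one] at h4
        have h7 : ‖rotation u⁻¹ z‖ ≤ 1 / 8 := h6.trans (h4.trans hδ)
        nlinarith [norm_nonneg (rotation u⁻¹ z)]
      · right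
        show rotation u⁻¹ ((c : ℂ) * z) ∈ tri δ
        rw [e]
        refine ⟨?_, ?_, ?_⟩
        · rw [Complex.re_ofReal_mul]; positivity
        · rw [Complex.re_ofReal_mul]; nlinarith
        · rw [Complex.re_ofReal_mul, Complex.im_ofReal_mul, abs_mul, abs_of_pos h0]
          calc c * |(rotation u⁻¹ z).im| ≤ c * (δ * (1 - (rotation u⁻¹ z).re)) := by gcongr
            _ < δ * (1 - c * (rotation u⁻¹ z).re) := by nlinarith

theorem vol_tri {δ : ℝ} (hδ : 0 ≤ δ) : volume (tri δ) ≤ ENNReal.ofReal (2 * δ) := by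
  have h1 : tri δ ⊆ Ioo (0 : ℝ) 1 ×ℂ Ioo (-δ) δ := by
    rintro w ⟨h1, h2, h3⟩
    have h4 : |w.im| < δ := by nlinarith
    exact ⟨⟨h1, h2⟩, abs_lt.1 h4⟩
  have h2 : volume (Ioo (0 : ℝ) 1 ×ℂ Ioo (-δ) δ) = ENNReal.ofReal (2 * δ) := by
    have h3 := Complex.volume_preserving_equiv_real_prod
    have h4 : (Ioo (0 : ℝ) 1 ×ℂ Ioo (-δ) δ) = Complex.measurableEquivRealProd ⁻¹' (Ioo (0 : ℝ) 1 ×ˢ Ioo (-δ) δ) := by
      ext w
      simp [mem_reProdIm, Complex.measurableEquivRealProd]
    rw [h4, h3.measure_preimage (measurableSet_Ioo.prod measurableSet_Ioo).nullMeasurableSet,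
      Measure.volume_eq_prod, Measure.prod_prod, Real.volume_Ioo, Real.volume_Ioo,
      ← ENNReal.ofReal_mul (by norm_num)]
    congr 1
    ring
  exact (measure_mono h1).trans h2.le

theorem vol_spike (u : Circle) {δ : ℝ} (hδ : 0 ≤ δ) : volume (spike u δ) ≤ ENNReal.ofReal (2 * δ) := by
  have h1 : MeasurePreserving (rotation u⁻¹) volume volume :=
    (rotation u⁻¹).measurePreserving
  rw [spike, h1.measure_preimage (tri_open δ).measurableSet.nullMeasurableSet]
  exact vol_tri hδ

/-- the recursion -/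
noncomputable def step (c : ℕ → Set ℂ → ℝ) : ℕ → Set ℂ × ℝ
  | 0 => (core, 1 / 4)
  | n + 1 => ((step c n).1 ∪ spike (TopologicalSpace.denseSeq Circle n)
      (min ((step c n).2 / 2) (c n (step c n).1)), min ((step c n).2 / 2) (c n (step c n).1))

theorem exists_domain (c : ℕ → Set ℂ → ℝ) (hc : ∀ n G, Good G → 0 < c n G)
    (hc' : ∀ n G, c n G ≤ 1 / 1000) :
    ∃ G : ℕ → Set ℂ, (∀ n, Good (G n)) ∧ Monotone G ∧
      (∀ n, volume ((⋃ m, G m) \ G n) ≤ ENNReal.ofReal (4 * c n (G n))) ∧ core ⊆ G 0 ∧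
      ball (0 : ℂ) 1 ⊆ closure (⋃ m, G m) ∧ ∃ z ∈ ball (0 : ℂ) 1, z ∉ ⋃ m, G m := by
  set G : ℕ → Set ℂ := fun n => (step c n).1 with hGd
  set d : ℕ → ℝ := fun n => (step c n).2 with hd
  have hG0 : G 0 = core := rfl
  have hd0 : d 0 = 1 / 4 := rfl
  have hGs : ∀ n, G (n + 1) = G n ∪ spike (TopologicalSpace.denseSeq Circle n) (d (n + 1)) :=
    fun n => rfl
  have hds : ∀ n, d (n + 1) = min (d n / 2) (c n (G n)) := fun n => rfl
  have key : ∀ n, Good (G n) ∧ 0 < d n ∧ d n ≤ 1 / 4 := by
    intro n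
    induction n with
    | zero => exact ⟨good_core, by rw [hd0]; norm_num, by rw [hd0]⟩
    | succ n ih =>
      obtain ⟨h1, h2, h3⟩ := ih
      have h4 : 0 < d (n + 1) := by
        rw [hds]
        exact lt_min (by linarith) (hc n _ h1)
      have h5 : d (n + 1) ≤ d n / 2 := by rw [hds]; exact min_le_left _ _
      refine ⟨?_, h4, by linarith⟩
      rw [hGs]
      exact good_union h1 _ h4 (by linarith)
  have hmono : Monotone G := monotone_nat_of_le_succ fun n => by rw [hGs]; exact subset_union_left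
  have hhalf : ∀ n k, d (n + 1 + k) ≤ d (n + 1) / 2 ^ k := by
    intro n k
    induction k with
    | zero => simp
    | succ k ih =>
      have h5 : d (n + 1 + k + 1) ≤ d (n + 1 + k) / 2 := by rw [hds]; exact min_le_left _ _
      calc d (n + 1 + (k + 1)) ≤ d (n + 1 + k) / 2 := h5
        _ ≤ d (n + 1) / 2 ^ k / 2 := by gcongr
        _ = d (n + 1) / 2 ^ (k + 1) := by rw [pow_succ]; field_simp
  have hsub : ∀ n m, G (n + m) ⊆ G n ∪ ⋃ k : ℕ, spike (TopologicalSpace.denseSeq Circle (n + k)) (d (n + 1 + k)) := by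
    intro n m
    induction m with
    | zero => exact subset_union_left
    | succ m ih =>
      rw [← add_assoc, hGs]
      refine union_subset ih ?_
      refine subset_union_of_subset_right (subset_iUnion_of_subset m ?_) _
      rw [show n + 1 + m = n + m + 1 by ring]
  have hvol : ∀ n, volume ((⋃ m, G m) \ G n) ≤ ENNReal.ofReal (4 * d (n + 1)) := by
    intro n
    have h1 : (⋃ m, G m) \ G n ⊆ ⋃ k : ℕ, spike (TopologicalSpace.denseSeq Circle (n + k)) (d (n + 1 + k)) := by
      rintro z ⟨hz, hzn⟩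
      obtain ⟨m, hm⟩ := mem_iUnion.1 hz
      have h2 : z ∈ G (n + m) := hmono (Nat.le_add_left m n) hm
      rcases hsub n m h2 with h3 | h3
      · exact absurd h3 hzn
      · exact h3
    calc volume ((⋃ m, G m) \ G n) ≤ ∑' k : ℕ, volume (spike (TopologicalSpace.denseSeq Circle (n + k)) (d (n + 1 + k))) :=
          (measure_mono h1).trans (measure_iUnion_le _)
      _ ≤ ∑' k : ℕ, ENNReal.ofReal (2 * d (n + 1)) * (2⁻¹ : ℝ≥0∞) ^ k := by
          refine ENNReal.tsum_le_tsum fun k => ?_
          have hpos : 0 < d (n + 1 + k) := (key _).2.1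
          refine (vol_spike _ hpos.le).trans ?_
          have e1 : (2⁻¹ : ℝ≥0∞) ^ k = ENNReal.ofReal (1 / 2 ^ k) := by
            rw [one_div, ← inv_pow, ENNReal.ofReal_pow (by norm_num), ENNReal.ofReal_inv_of_pos (by norm_num)]
            simp
          rw [e1, ← ENNReal.ofReal_mul (by have := (key (n + 1)).2.1; positivity)]
          apply ENNReal.ofReal_le_ofReal
          have := hhalf n k
          calc 2 * d (n + 1 + k) ≤ 2 * (d (n + 1) / 2 ^ k) := by gcongr
            _ = 2 * d (n + 1) * (1 / 2 ^ k) := by ring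
      _ = ENNReal.ofReal (4 * d (n + 1)) := by
          have e2 : ENNReal.ofReal (4 * d (n + 1)) = ENNReal.ofReal (2 * d (n + 1)) * 2 := by
            rw [show (4 : ℝ) * d (n + 1) = 2 * d (n + 1) * 2 by ring,
              ENNReal.ofReal_mul (p := 2 * d (n + 1)) (by have := (key (n + 1)).2.1; positivity),
              ENNReal.ofReal_ofNat]
          rw [e2, ENNReal.tsum_mul_left, ENNReal.tsum_geometric, ENNReal.one_sub_inv_two, inv_inv]
  have hvol' : ∀ n, volume ((⋃ m, G m) \ G n) ≤ ENNReal.ofReal (4 * c n (G n)) := by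
    intro n
    refine (hvol n).trans (ENNReal.ofReal_le_ofReal ?_)
    have : d (n + 1) ≤ c n (G n) := by rw [hds]; exact min_le_right _ _
    linarith
  refine ⟨G, fun n => (key n).1, hmono, hvol', hG0 ▸ subset_rfl, ?_, ?_⟩
  · intro z hz
    by_cases hz0 : z = 0
    · subst hz0
      exact subset_closure (mem_iUnion.2 ⟨0, (key 0).1.core (by simp)⟩)
    have hzn : 0 < ‖z‖ := norm_pos_iff.2 hz0
    have hz1 : ‖z‖ < 1 := by simpa using hz
    let g : Circle → ℂ := fun v => (‖z‖ : ℂ) * v
    have hg : Continuous g := by fun_prop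
    obtain ⟨v0, hv0⟩ : ∃ v0 : Circle, g v0 = z := by
      refine ⟨⟨z / ‖z‖, ?_⟩, ?_⟩
      · have h0 : z / (‖z‖ : ℂ) ∈ sphere (0 : ℂ) 1 := by
          rw [mem_sphere_zero_iff_norm, norm_div, Complex.norm_real, norm_norm, div_self hzn.ne']
        exact h0
      · show (‖z‖ : ℂ) * (z / ‖z‖) = z
        have : (‖z‖ : ℂ) ≠ 0 := by exact_mod_cast hzn.ne'
        field_simp
    rw [← hv0]
    refine map_mem_closure (s := range (TopologicalSpace.denseSeq Circle)) hg ?_ ?_
    · rw [(TopologicalSpace.denseRange_denseSeq Circle).closure_range]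
      exact mem_univ _
    · rintro _ ⟨n, rfl⟩
      refine mem_iUnion.2 ⟨n + 1, ?_⟩
      rw [hGs]
      right
      show rotation (TopologicalSpace.denseSeq Circle n)⁻¹ ((‖z‖ : ℂ) * (TopologicalSpace.denseSeq Circle n : Circle)) ∈ tri _
      have e : rotation (TopologicalSpace.denseSeq Circle n)⁻¹ ((‖z‖ : ℂ) * (TopologicalSpace.denseSeq Circle n : Circle)) = (‖z‖ : ℂ) := by
        rw [rotation_apply, Circle.coe_inv]
        have : ((TopologicalSpace.denseSeq Circle n : Circle) : ℂ) ≠ 0 := Circle.coe_ne_zero _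
        field_simp
      rw [e]
      refine ⟨by simpa using hzn, by simpa using hz1, ?_⟩
      rw [Complex.ofReal_im, abs_zero, Complex.ofReal_re]
      have := (key (n + 1)).2.1
      have h9 : 0 < 1 - ‖z‖ := by linarith
      positivity
  · by_contra hcon
    push Not at hcon
    have h1 : ball (-3 / 4 : ℂ) (1 / 8) ⊆ (⋃ m, G m) \ G 0 := by
      intro z hz
      rw [mem_ball, dist_eq_norm] at hz
      have h2 := Complex.abs_re_le_norm (z - (-3 / 4))
      have h3 : (z - (-3 / 4)).re = z.re + 3 / 4 := by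
        simp [Complex.sub_re]
        norm_num
      rw [h3] at h2
      have h4 := (abs_le.1 h2).2
      refine ⟨hcon z ?_, ?_⟩
      · rw [mem_ball_zero_iff]
        have h5 : ‖z‖ ≤ ‖z - (-3 / 4)‖ + ‖(-3 / 4 : ℂ)‖ := by
          have := norm_add_le (z - (-3 / 4)) (-3 / 4 : ℂ)
          simpa using this
        have h6 : ‖(-3 / 4 : ℂ)‖ = 3 / 4 := by
          rw [norm_div, norm_neg]; norm_num
        linarith
      · rw [hG0]
        rintro ⟨-, h7⟩
        linarith
    have h2 := (measure_mono h1).trans (hvol' 0)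
    rw [Complex.volume_ball] at h2
    have h3 := hc' 0 (G 0)
    have h4 : ENNReal.ofReal (4 * c 0 (G 0)) ≤ ENNReal.ofReal (4 / 1000) :=
      ENNReal.ofReal_le_ofReal (by linarith)
    have h5 : ENNReal.ofReal (1 / 8) ^ 2 * NNReal.pi ≤ ENNReal.ofReal (4 / 1000) := h2.trans h4
    have h6 : ENNReal.ofReal (1 / 8) ^ 2 * NNReal.pi = ENNReal.ofReal ((1 / 8) ^ 2 * Real.pi) := by
      rw [ENNReal.ofReal_mul (by positivity), ENNReal.ofReal_pow (by norm_num)]
      congr 1
      rw [← NNReal.coe_real_pi, ENNReal.ofReal_coe_nnreal]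
    rw [h6, ENNReal.ofReal_le_ofReal_iff (by norm_num)] at h5
    nlinarith [Real.pi_gt_three]

end Pool.Agent.U547.SP
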