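import Mathlib
import Pool.Agent.U547.SP.Bound
import Pool.Agent.U547.SP.Geom
import Pool.Agent.Helper265.HgB

/-! Polynomial approximation on the union of the stages. -/

set_option autoImplicit false
open Complex Set Filter Metric Topology MeasureTheory
open scoped ENNReal

namespace Pool.Agent.U547.SP

open Pool.Agent.Helper265.Hg (Good)

/-- measurability of the weight -/
theorem w_meas {Ω : Set ℂ} (hO : IsOpen Ω) {φ : ℂ → ℂ} (hφ : ContinuousOn φ Ω)
    (hφb : ∀ z ∈ Ω, ‖φ z‖ < 1) {W : ℝ → ℝ} (hWpos : ∀ t ∈ Ioc (0 : ℝ) 1, 0 < W t)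
    (hWmono : MonotoneOn W (Ioc 0 1)) :
    AEMeasurable (fun z : ℂ => ENNReal.ofReal (W (1 - ‖φ z‖))) (volume.restrict Ω) := by
  let W' : ℝ → ℝ := fun t => if t ≤ 0 then 0 else W (min t 1)
  have hmono : Monotone W' := by
    intro t s hts
    simp only [W']
    by_cases ht : t ≤ 0
    · rw [if_pos ht]
      by_cases hs : s ≤ 0
      · rw [if_pos hs]
      · rw [if_neg hs]
        exact (hWpos _ ⟨lt_min (not_le.1 hs) one_pos, min_le_right _ _⟩).le
    · have hs : ¬ s ≤ 0 := fun h => ht (hts.trans h)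
      rw [if_neg ht, if_neg hs]
      exact hWmono ⟨lt_min (not_le.1 ht) one_pos, min_le_right _ _⟩
        ⟨lt_min (not_le.1 hs) one_pos, min_le_right _ _⟩ (min_le_min_right _ hts)
  have hm : Measurable (fun w : ℂ => ENNReal.ofReal (W' (1 - ‖w‖))) :=
    ENNReal.measurable_ofReal.comp (hmono.measurable.comp (measurable_const.sub measurable_norm))
  have hφm : AEMeasurable φ (volume.restrict Ω) := hφ.aemeasurable hO.measurableSet
  refine (hm.comp_aemeasurable hφm).congr ?_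
  rw [Filter.EventuallyEq, ae_restrict_iff' hO.measurableSet]
  refine Eventually.of_forall fun z hz => ?_
  have := hφb z hz
  simp only [W', Function.comp_apply]
  rw [if_neg (by linarith), min_eq_left (by linarith [norm_nonneg (φ z)])]

theorem approx_poly {W : ℝ → ℝ} (hmono : MonotoneOn W (Ioc 0 1))
    {G : ℕ → Set ℂ} {M : ℕ → ℝ} (hG : ∀ n, Good (G n))
    (hst : ∀ n, Stage W n (G n) (M n))
    (hvol : ∀ n, volume ((⋃ m, G m) \ G n) ≤
      ENNReal.ofReal (4 * (1 / (((n : ℝ) + 1) * (1 + M n) ^ n))))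
    {φ : ℂ → ℂ} (hφ : DifferentiableOn ℂ φ (⋃ m, G m))
    (hφb : MapsTo φ (⋃ m, G m) (ball 0 1)) (hφ0 : φ 0 = 0)
    (hφc : ∀ z ∈ ⋃ m, G m, ∀ c : ℝ, 0 < c → c ≤ 1 → ‖φ ((c : ℂ) * z)‖ ≤ ‖φ z‖)
    (hwm : AEMeasurable (fun z => ENNReal.ofReal (W (1 - ‖φ z‖))) (volume.restrict (⋃ m, G m)))
    {p : ℝ} (hp : 1 ≤ p) {f : ℂ → ℂ} (hf : DifferentiableOn ℂ f (⋃ m, G m))
    (hfin : ∫⁻ z in ⋃ m, G m, ‖f z‖ₑ ^ p * ENNReal.ofReal (W (1 - ‖φ z‖)) ≠ ∞)
    {ε : ℝ≥0∞} (hε : 0 < ε) :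
    ∃ P : Polynomial ℂ,
      ∫⁻ z in ⋃ m, G m, ‖f z - P.eval z‖ₑ ^ p * ENNReal.ofReal (W (1 - ‖φ z‖)) < ε := by
  set Ω : Set ℂ := ⋃ m, G m with hΩ
  set w : ℂ → ℝ≥0∞ := fun z => ENNReal.ofReal (W (1 - ‖φ z‖)) with hw
  have hp0 : 0 < p := by linarith
  have hO : IsOpen Ω := isOpen_iUnion fun n => (hG n).op
  have hOm : MeasurableSet Ω := hO.measurableSet
  have hsub : Ω ⊆ ball 0 1 := iUnion_subset fun n => (hG n).sub
  have hGsub : ∀ n, G n ⊆ Ω := fun n => subset_iUnion G n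
  have hstar : ∀ z ∈ Ω, ∀ c : ℝ, 0 < c → c ≤ 1 → (c : ℂ) * z ∈ Ω := by
    intro z hz c hc0 hc1
    obtain ⟨m, hm⟩ := mem_iUnion.1 hz
    exact mem_iUnion.2 ⟨m, good_star (hG m) z hm c hc0 hc1⟩
  have hball : ∀ z ∈ Ω, ‖φ z‖ < 1 := fun z hz => by simpa using hφb hz
  have hwt : ∀ z, w z ≠ ∞ := fun z => ENNReal.ofReal_ne_top
  have hwle : ∀ z ∈ Ω, w z ≤ ENNReal.ofReal (W 1) := by
    intro z hz
    apply ENNReal.ofReal_le_ofReal
    exact hmono ⟨by linarith [hball z hz], by linarith [norm_nonneg (φ z)]⟩ ⟨one_pos, le_rfl⟩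
      (by linarith [norm_nonneg (φ z)])
  have hwint : ∀ S ⊆ Ω, MeasurableSet S → ∫⁻ z in S, w z ≤ ENNReal.ofReal (W 1) * volume S := by
    intro S hS hSm
    rw [← setLIntegral_const]
    exact setLIntegral_mono' hSm fun z hz => hwle z (hS hz)
  have hvΩ : volume Ω ≠ ∞ := ((measure_mono hsub).trans_lt measure_ball_lt_top).ne
  have hwfin : ∫⁻ z in Ω, w z ≠ ∞ :=
    ne_top_of_le_ne_top (ENNReal.mul_ne_top ENNReal.ofReal_ne_top hvΩ) (hwint Ω subset_rfl hOm)
  have hf1 : ∫⁻ z in Ω, ‖f z‖ₑ * w z ≠ ∞ := by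
    refine ne_top_of_le_ne_top (ENNReal.add_ne_top.2 ⟨hwfin, hfin⟩) ?_
    rw [← lintegral_add_left' hwm]
    refine lintegral_mono fun z => ?_
    rcases le_total (‖f z‖ₑ) 1 with h | h
    · calc ‖f z‖ₑ * w z ≤ 1 * w z := by gcongr
        _ ≤ _ := by rw [one_mul]; exact le_self_add
    · calc ‖f z‖ₑ * w z ≤ ‖f z‖ₑ ^ p * w z := by
            gcongr
            calc ‖f z‖ₑ = ‖f z‖ₑ ^ (1 : ℝ) := (ENNReal.rpow_one _).symm
              _ ≤ _ := ENNReal.rpow_le_rpow_of_exponent_le h hp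
        _ ≤ _ := le_add_self
  have hdil := Pool.Agent.Helper265.Hg.dil_tendsto hO hstar hwm (fun z _ => hwt z)
    (by
      intro z hz c hc0 hc1
      have h1 := hφc z hz c hc0 hc1
      have h2 := hball z hz
      apply ENNReal.ofReal_le_ofReal
      exact hmono ⟨by linarith, by linarith [norm_nonneg (φ z)]⟩
        ⟨by linarith, by linarith [norm_nonneg (φ ((c : ℂ) * z))]⟩ (by linarith))
    hp hf.continuousOn hfin rad rad_pos rad_lt rad_tendsto
  set D : ℕ → ℝ≥0∞ := fun n => ∫⁻ z in Ω, ‖f ((rad n : ℂ) * z) - f z‖ₑ ^ p * w z with hD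
  set K : ℝ≥0∞ := 2 ^ (p - 1) with hK
  have hKt : K ≠ ∞ := ENNReal.rpow_ne_top_of_nonneg (by linarith) (by norm_num)
  have hone : Tendsto (fun n : ℕ => ENNReal.ofReal (1 / ((n : ℝ) + 1))) atTop (𝓝 0) := by
    have := ENNReal.tendsto_ofReal (tendsto_one_div_add_atTop_nhds_zero_nat (𝕜 := ℝ))
    simpa using this
  have hfour : Tendsto (fun n : ℕ => ENNReal.ofReal (4 * (1 / ((n : ℝ) + 1)))) atTop (𝓝 0) := by
    have h1 := (tendsto_one_div_add_atTop_nhds_zero_nat (𝕜 := ℝ)).const_mul 4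
    rw [mul_zero] at h1
    have := ENNReal.tendsto_ofReal h1
    simpa using this
  -- the four error terms
  set B : ℕ → ℝ≥0∞ := fun n => (ENNReal.ofReal (1 / ((n : ℝ) + 1))) ^ p * ∫⁻ z in Ω, w z with hB
  have hBt : Tendsto B atTop (𝓝 0) := by
    have h7 := (ENNReal.continuous_rpow_const (y := p)).tendsto (0:ℝ≥0∞)
    rw [ENNReal.zero_rpow_of_pos hp0] at h7
    have h8 := ENNReal.Tendsto.mul_const (h7.comp hone) (Or.inr hwfin)
    rw [zero_mul] at h8
    exact h8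
  set T : ℕ → ℝ≥0∞ := fun n => ∫⁻ z in Ω \ G n, ‖f z‖ₑ ^ p * w z with hT
  have hM1 : ∀ n, (1 : ℝ) ≤ (1 + M n) ^ n := fun n => one_le_pow₀ (by linarith [(hst n).1])
  have hvol1 : ∀ n, volume (Ω \ G n) ≤ ENNReal.ofReal (4 * (1 / ((n : ℝ) + 1))) := by
    intro n
    refine (hvol n).trans (ENNReal.ofReal_le_ofReal ?_)
    have h0 : (0 : ℝ) < (n : ℝ) + 1 := by positivity
    gcongr
    exact le_mul_of_one_le_right h0.le (hM1 n)
  have hvolt : Tendsto (fun n => volume (Ω \ G n)) atTop (𝓝 0) :=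
    tendsto_of_tendsto_of_tendsto_of_le_of_le tendsto_const_nhds hfour (fun n => bot_le) hvol1
  have hdiffm : ∀ n, MeasurableSet (Ω \ G n) := fun n => hOm.diff (hG n).op.measurableSet
  have hTt : Tendsto T atTop (𝓝 0) := by
    have h1 := tendsto_setLIntegral_zero (μ := volume.restrict Ω) hfin (l := atTop)
      (s := fun n => Ω \ G n) (by
        refine tendsto_of_tendsto_of_tendsto_of_le_of_le tendsto_const_nhds hvolt
          (fun n => bot_le) (fun n => ?_)
        exact Measure.restrict_apply_le _ _)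
    refine h1.congr fun n => ?_
    rw [Measure.restrict_restrict (hdiffm n), inter_eq_left.2 sdiff_subset]
  set V : ℕ → ℝ≥0∞ := fun n => ENNReal.ofReal (W 1) * ENNReal.ofReal (4 * (1 / ((n : ℝ) + 1))) with hV
  have hVt : Tendsto V atTop (𝓝 0) := by
    have := ENNReal.Tendsto.const_mul (a := ENNReal.ofReal (W 1)) hfour (Or.inr ENNReal.ofReal_ne_top)
    rwa [mul_zero] at this
  have htot : Tendsto (fun n => K * (D n + B n) + K * (T n + V n)) atTop (𝓝 0) := by
    have h1 := ENNReal.Tendsto.const_mul (a := K) (hdil.add hBt) (Or.inr hKt)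
    have h2 := ENNReal.Tendsto.const_mul (a := K) (hTt.add hVt) (Or.inr hKt)
    have h3 := h1.add h2
    simpa using h3
  have hev1 : ∀ᶠ n : ℕ in atTop, K * (D n + B n) + K * (T n + V n) < ε :=
    (tendsto_order.1 htot).2 ε hε
  have hev2 : ∀ᶠ n : ℕ in atTop, p ≤ n := by
    obtain ⟨N, hN⟩ := exists_nat_ge p
    filter_upwards [eventually_ge_atTop N] with n hn
    exact hN.trans (by exact_mod_cast hn)
  have hev3 : ∀ᶠ n : ℕ in atTop, ∫⁻ z in Ω, ‖f z‖ₑ * w z ≤ ENNReal.ofReal n := by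
    obtain ⟨N, hN⟩ := exists_nat_ge (∫⁻ z in Ω, ‖f z‖ₑ * w z).toReal
    filter_upwards [eventually_ge_atTop N] with n hn
    rw [← ENNReal.ofReal_toReal hf1]
    exact ENNReal.ofReal_le_ofReal (hN.trans (by exact_mod_cast hn))
  obtain ⟨n, h1, h2, h3⟩ := (hev1.and (hev2.and hev3)).exists
  obtain ⟨P, hP1, hP2⟩ := (hst n).2 f φ (hf.mono (hGsub n)) (hφ.mono (hGsub n))
    (hφb.mono_left (hGsub n)) hφ0 ((lintegral_mono_set (hGsub n)).trans h3)
  refine ⟨P, lt_of_le_of_lt ?_ h1⟩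
  have hM0 := (hst n).1
  have hsplit : ∀ a b : ℂ, ‖a - b‖ₑ ^ p ≤ K * (‖a‖ₑ ^ p + ‖b‖ₑ ^ p) := by
    intro a b
    calc ‖a - b‖ₑ ^ p ≤ (‖a‖ₑ + ‖b‖ₑ) ^ p := ENNReal.rpow_le_rpow enorm_sub_le hp0.le
      _ ≤ _ := ENNReal.rpow_add_le_mul_rpow_add_rpow _ _ hp
  have hwmS : ∀ S ⊆ Ω, AEMeasurable w (volume.restrict S) := fun S hS =>
    hwm.mono_measure (Measure.restrict_mono hS le_rfl)
  rw [← lintegral_inter_add_sdiff _ Ω (hG n).op.measurableSet, inter_eq_right.2 (hGsub n)]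
  refine add_le_add ?_ ?_
  · -- on `G n`
    calc ∫⁻ z in G n, ‖f z - P.eval z‖ₑ ^ p * w z
        ≤ ∫⁻ z in G n, K * (‖f ((rad n : ℂ) * z) - f z‖ₑ ^ p * w z +
            (ENNReal.ofReal (1 / ((n : ℝ) + 1))) ^ p * w z) := by
          refine setLIntegral_mono' (hG n).op.measurableSet fun z hz => ?_
          have e1 : f z - P.eval z = (f ((rad n : ℂ) * z) - P.eval z) - (f ((rad n : ℂ) * z) - f z) := by
            ring
          have e2 : ‖f ((rad n : ℂ) * z) - P.eval z‖ₑ ^ p ≤ (ENNReal.ofReal (1 / ((n : ℝ) + 1))) ^ p := by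
            refine ENNReal.rpow_le_rpow ?_ hp0.le
            rw [← ofReal_norm]
            exact ENNReal.ofReal_le_ofReal (hP1 z hz)
          calc ‖f z - P.eval z‖ₑ ^ p * w z
              ≤ (K * (‖f ((rad n : ℂ) * z) - P.eval z‖ₑ ^ p +
                ‖f ((rad n : ℂ) * z) - f z‖ₑ ^ p)) * w z := by
                rw [e1]; gcongr; exact hsplit _ _
            _ ≤ (K * ((ENNReal.ofReal (1 / ((n : ℝ) + 1))) ^ p +
                ‖f ((rad n : ℂ) * z) - f z‖ₑ ^ p)) * w z := by gcongr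
            _ = _ := by ring
      _ = K * ((∫⁻ z in G n, ‖f ((rad n : ℂ) * z) - f z‖ₑ ^ p * w z) +
            (ENNReal.ofReal (1 / ((n : ℝ) + 1))) ^ p * ∫⁻ z in G n, w z) := by
          rw [lintegral_const_mul' _ _ hKt, lintegral_add_right' _
            ((hwmS _ (hGsub n)).const_mul _), lintegral_const_mul' _ _
            (ENNReal.rpow_ne_top_of_nonneg hp0.le ENNReal.ofReal_ne_top)]
      _ ≤ K * (D n + B n) := by
          gcongr
          · exact lintegral_mono_set (hGsub n)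
          · simp only [hB]
            gcongr
            exact hGsub n
  · -- outside `G n`
    have hMt : (ENNReal.ofReal (M n)) ^ p ≠ ∞ :=
      ENNReal.rpow_ne_top_of_nonneg hp0.le ENNReal.ofReal_ne_top
    calc ∫⁻ z in Ω \ G n, ‖f z - P.eval z‖ₑ ^ p * w z
        ≤ ∫⁻ z in Ω \ G n, K * (‖f z‖ₑ ^ p * w z + (ENNReal.ofReal (M n)) ^ p * w z) := by
          refine setLIntegral_mono' (hdiffm n) fun z hz => ?_
          have e2 : ‖P.eval z‖ₑ ^ p ≤ (ENNReal.ofReal (M n)) ^ p := by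
            refine ENNReal.rpow_le_rpow ?_ hp0.le
            rw [← ofReal_norm]
            exact ENNReal.ofReal_le_ofReal (hP2 z (ball_subset_closedBall (hsub hz.1)))
          calc ‖f z - P.eval z‖ₑ ^ p * w z ≤ (K * (‖f z‖ₑ ^ p + ‖P.eval z‖ₑ ^ p)) * w z := by
                gcongr; exact hsplit _ _
            _ ≤ (K * (‖f z‖ₑ ^ p + (ENNReal.ofReal (M n)) ^ p)) * w z := by gcongr
            _ = _ := by ring
      _ = K * (T n + (ENNReal.ofReal (M n)) ^ p * ∫⁻ z in Ω \ G n, w z) := by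
          rw [lintegral_const_mul' _ _ hKt, lintegral_add_right' _
            ((hwmS _ sdiff_subset).const_mul _), lintegral_const_mul' _ _ hMt]
      _ ≤ K * (T n + V n) := by
          gcongr
          calc (ENNReal.ofReal (M n)) ^ p * ∫⁻ z in Ω \ G n, w z
              ≤ (ENNReal.ofReal (M n)) ^ p * (ENNReal.ofReal (W 1) *
                ENNReal.ofReal (4 * (1 / (((n : ℝ) + 1) * (1 + M n) ^ n)))) := by
                gcongr
                refine (hwint _ sdiff_subset (hdiffm n)).trans ?_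
                gcongr
                exact hvol n
            _ = ENNReal.ofReal (W 1) * ENNReal.ofReal ((M n) ^ p *
                  (4 * (1 / (((n : ℝ) + 1) * (1 + M n) ^ n)))) := by
                rw [ENNReal.ofReal_mul (p := (M n) ^ p) (by positivity),
                  ENNReal.ofReal_rpow_of_nonneg hM0 hp0.le]
                ac_rfl
            _ ≤ V n := by
                simp only [hV]
                refine mul_le_mul' le_rfl (ENNReal.ofReal_le_ofReal ?_)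
                have e3 : (M n) ^ p ≤ (1 + M n) ^ n := by
                  calc (M n) ^ p ≤ (1 + M n) ^ p := Real.rpow_le_rpow hM0 (by linarith) hp0.le
                    _ ≤ (1 + M n) ^ (n : ℝ) := Real.rpow_le_rpow_of_exponent_le (by linarith) h2
                    _ = _ := Real.rpow_natCast _ _
                have e4 : (0 : ℝ) < (1 + M n) ^ n := lt_of_lt_of_le one_pos (hM1 n)
                have e5 : (0 : ℝ) < (n : ℝ) + 1 := by positivity
                calc (M n) ^ p * (4 * (1 / (((n : ℝ) + 1) * (1 + M n) ^ n)))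
                    ≤ (1 + M n) ^ n * (4 * (1 / (((n : ℝ) + 1) * (1 + M n) ^ n))) := by
                      gcongr
                  _ = 4 * (1 / ((n : ℝ) + 1)) := by
                      field_simp

/-- conformal maps contract radially -/
theorem phi_radial {Ω : Set ℂ} (hO : IsOpen Ω)
    (hstar : ∀ z ∈ Ω, ∀ c : ℝ, 0 < c → c ≤ 1 → (c : ℂ) * z ∈ Ω) {φ : ℂ → ℂ}
    (hφ : DifferentiableOn ℂ φ Ω) (hb : BijOn φ Ω (ball 0 1)) (hd : ∀ z ∈ Ω, deriv φ z ≠ 0)
    (h0 : (0 : ℂ) ∈ Ω) (hφ0 : φ 0 = 0) :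
    ∀ z ∈ Ω, ∀ c : ℝ, 0 < c → c ≤ 1 → ‖φ ((c : ℂ) * z)‖ ≤ ‖φ z‖ := by
  intro z hz c hc0 hc1
  set g : ℂ → ℂ := Function.invFunOn φ Ω with hg
  have hleft : ∀ z ∈ Ω, g (φ z) = z := fun z hz => hb.injOn.leftInvOn_invFunOn hz
  have hder : ∀ w ∈ Ω, HasStrictDerivAt g (deriv φ w)⁻¹ (φ w) := by
    intro w hw
    have hs : HasStrictDerivAt φ (deriv φ w) w :=
      ((hφ.analyticAt (hO.mem_nhds hw)).hasStrictDerivAt)
    apply hs.to_local_left_inverse (hd w hw)
    filter_upwards [hO.mem_nhds hw] with x hx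
    exact hleft x hx
  have hgd : DifferentiableOn ℂ g (ball 0 1) := by
    intro y hy
    obtain ⟨w, hw, rfl⟩ := hb.surjOn hy
    exact (hder w hw).hasDerivAt.differentiableAt.differentiableWithinAt
  have hgm : MapsTo g (ball 0 1) Ω := by
    intro y hy
    obtain ⟨w, hw, rfl⟩ := hb.surjOn hy
    rw [hleft w hw]
    exact hw
  have hg0 : g 0 = 0 := by
    have := hleft 0 h0
    rwa [hφ0] at this
  have key := Complex.norm_le_norm_of_mapsTo_ball (R := 1) (f := fun y => φ ((c : ℂ) * g y))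
    (z := φ z) (hφ.comp (hgd.const_mul _) fun y hy => hstar _ (hgm hy) c hc0 hc1)
    (fun y hy => ball_subset_closedBall (hb.mapsTo (hstar _ (hgm hy) c hc0 hc1)))
    (by show φ ((c : ℂ) * g 0) = 0; rw [hg0, mul_zero, hφ0])
    (by simpa using hb.mapsTo hz)
  simp only [hleft z hz] at key
  exact key

end Pool.Agent.U547.SP
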